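import Pool.Agent.R567.MSub.Neighbour

set_option autoImplicit false

/-!
# A finest matroid subdivision of `Δ(3, 9)` with a decomposable maximal cell

The definitions `vec`, `polytope`, `IsFace`, `IsPolytopalComplex`, `IsCell`,
`IsMatroidSubdivision` are in `Pool/Agent/R567/MSub/Basic.lean`, `Refines` and `IsFinest` in
`Pool/Agent/R567/MSub/Order.lean`, `Indecomposable` in `Pool/Agent/R567/MSub/Neighbour.lean`.

The subdivision is any finest refinement of the subdivision given by nine lines on nine points
`0, ..., 8`: `0123`, `0456`, `078`, `714`, `725`, `736`, `815`, `826`, `834`. The composition of the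
perspectivities `0123 → 0456` from `7` and `0456 → 0123` from `8` fixes `0` and permutes `1, 2, 3`
cyclically. Hence no refinement can subdivide the common face of the central cell and the cell of
the line `0123` (this face is the product of an octahedron and a simplex). The neighbour of this
face on the side of the line is the polytope of one of five explicit matroids, and each of these
has a nontrivial matroid subdivision.
-/

namespace Pool.Agent.Results.MP_6a4d09_co.FinestDecomposable

open Set Pool.Agent.R567.MSub

/-- **The hypersimplex `Δ(3, 9)` has a finest matroid subdivision with a maximal cell `P_N` such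
that `N` is not indecomposable.** -/
theorem result : ∃ U : Matroid (Fin 9), (∀ B, U.IsBase B ↔ B.ncard = 3) ∧
    polytope U = convexHull ℝ {x | ∃ B : Set (Fin 9), B.ncard = 3 ∧ x = vec B} ∧
    ∃ C : Set (Set (Fin 9 → ℝ)), IsFinest U C ∧
      ∃ N : Matroid (Fin 9), N.E = univ ∧ IsCell C (polytope N) ∧ ¬ Indecomposable N := by
  obtain ⟨U, hU, C, hC, N, hN, hcell, hdec⟩ := finest_decomposable
  refine ⟨U, hU, ?_, C, hC, N, hN, hcell, hdec⟩
  unfold polytope
  congr 1
  ext x
  constructor
  · rintro ⟨B, hB, rfl⟩
    exact ⟨B, (hU B).mp hB, rfl⟩
  · rintro ⟨B, hB, rfl⟩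
    exact ⟨B, (hU B).mpr hB, rfl⟩

end Pool.Agent.Results.MP_6a4d09_co.FinestDecomposable
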